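import Pool.Agent.Y813.CntE.Sum

/-!
The sum over all vectors with independent coordinates, over an extension of the field with `q`
elements.
-/

set_option autoImplicit false
set_option linter.unusedSectionVars false

open Polynomial Finset
open Pool.Agent.Y709 Pool.Agent.Y515.Cnt Pool.Agent.Y515.CntG Pool.Agent.Y515.CntS
open Pool.Agent.Y515.CntD (sum_geo98 sum_floor98 sum_quarter class_bound card_fib arith_a arith_b0
  arith_b1 arith_room)

namespace Pool.Agent.Y813.CntE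

variable {k : Type} [Field k] [Fintype k]
variable {r q Q f V N ρ κ : ℕ} {Φ Ψ : Matrix (Fin r) (Fin r) k[X]} {δ : k[X]}

theorem sum_zeroE (hQk : Fintype.card k = Q)
    (T : Finset (Fin r → k[X])) (x γ : (Fin r → k[X]) → ℕ)
    (c : (Fin r → k[X]) → Fin r → k[X]) (G n : (Fin r → k[X]) → k[X])
    (hT : ∀ w ∈ T, (∀ b, w b ∈ PF k V) ∧
      RcE q N V f ρ (mv Φ w) (x w) (γ w) (c w) (G w) (n w) ∧ x w ≤ ρ) :
    ∑ w ∈ T, ((KerF q N (mv Φ w)).card : ℝ) ≤ (Q : ℝ) ^ (N + 1) := by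
  classical
  have hQ0 : 0 < Q := by rw [← hQk]; exact Fintype.card_pos
  have h1 : T.card ≤ Q ^ (r * V) := by
    have h3 : T ⊆ Fintype.piFinset (fun _ : Fin r => PF k V) := by
      intro w hw
      rw [Fintype.mem_piFinset]
      exact (hT w hw).1
    refine (Finset.card_le_card h3).trans (le_of_eq ?_)
    rw [Fintype.card_piFinset, Finset.prod_const, card_PF, Finset.card_univ, Fintype.card_fin,
      hQk, ← pow_mul, mul_comm]
  have h2 := class_bound (m := 0) (a := r * V) (b := r * V) (c := N + 1) (e := 0) (M := N + 1)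
    hQ0 T (fun w => (KerF q N (mv Φ w)).card) (by rw [pow_zero, mul_one]; exact h1)
    (fun w hw => by rw [← hQk]; exact (hT w hw).2.1.hker' (hT w hw).2.2) (by omega)
  rw [pow_zero, div_one] at h2
  exact h2

theorem sum_aE (hQk : Fintype.card k = Q) (hqQ : q ≤ Q) (hr : 1 ≤ r) (hdet : Φ.det ≠ 0) (hV1 : 1 ≤ V)
    (hq : 4 * (r + 1) ^ 2 ≤ q)
    (T : Finset (Fin r → k[X])) (x γ : (Fin r → k[X]) → ℕ)
    (c : (Fin r → k[X]) → Fin r → k[X]) (G n : (Fin r → k[X]) → k[X])
    (hT : ∀ w ∈ T, (∀ b, w b ∈ PF k V) ∧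
      RcE q N V f ρ (mv Φ w) (x w) (γ w) (c w) (G w) (n w) ∧ 2 * f + 4 * r + 8 ≤ x w) :
    ∑ w ∈ T, ((KerF q N (mv Φ w)).card : ℝ) ≤ 2 * ((Q : ℝ) ^ (N + 1) / (Q : ℝ) ^ 2) := by
  classical
  have hR : 4 ≤ (r + 1) ^ 2 := by nlinarith
  have hQ : (16 : ℝ) ≤ (Q : ℝ) := by
    have : 16 ≤ Q := by omega
    exact_mod_cast this
  have hQn : 0 < Q := by omega
  have hq0 : 0 < q := by omega
  have hmaps : ∀ w ∈ T, x w ∈ Finset.Ico (2 * f + 4 * r + 8) (V + f) := by
    intro w hw
    rw [Finset.mem_Ico]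
    have h1 := (hT w hw).2.1.hn
    have h2 := (hT w hw).2.2
    omega
  rw [← Finset.sum_fiberwise_of_maps_to hmaps]
  calc _ ≤ ∑ y ∈ Finset.Ico (2 * f + 4 * r + 8) (V + f),
        (Q : ℝ) ^ (N + 1) / (Q : ℝ) ^ (2 + (y + 3) / 4) := by
        apply Finset.sum_le_sum
        intro y hy
        rw [Finset.mem_Ico] at hy
        have h1 := class_card_aE (N := N) (ρ := ρ) (f := f) hq0 hQk hdet y hV1
          (T.filter (fun w => x w = y)) γ c G n (by
            intro w hw
            rw [Finset.mem_filter] at hw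
            have h2 := hT w hw.1
            rw [hw.2] at h2
            exact ⟨h2.1, h2.2.1⟩)
        apply class_bound (b := r * V) (c := N + 1 + r * (y / q + 1)) hQn _
          (fun w => (KerF q N (mv Φ w)).card) h1
        · intro w hw
          rw [Finset.mem_filter] at hw
          have h2 := (hT w hw.1).2.1.hker
          rw [hw.2, hQk] at h2
          exact h2
        · have h3 := arith_a (r := r) (q := q) (f := f) hq hy.1
          have h4 : V * (r - 1) + V = r * V := by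
            obtain ⟨s, rfl⟩ : ∃ s, r = s + 1 := ⟨r - 1, by omega⟩
            rw [Nat.add_sub_cancel]; ring
          omega
    _ = (Q : ℝ) ^ (N + 1) / (Q : ℝ) ^ 2 * ∑ y ∈ Finset.Ico (2 * f + 4 * r + 8) (V + f),
        1 / (Q : ℝ) ^ ((y + 3) / 4) := by
        rw [Finset.mul_sum]
        apply Finset.sum_congr rfl
        intro y _
        rw [pow_add (Q : ℝ) 2, div_mul_div_comm, mul_one]
    _ ≤ (Q : ℝ) ^ (N + 1) / (Q : ℝ) ^ 2 * 2 := by
        apply mul_le_mul_of_nonneg_left _ (by positivity)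
        apply sum_quarter (Q : ℝ) hQ _ (V + f)
        intro y hy
        rw [Finset.mem_Ico] at hy
        rw [Finset.mem_range]
        exact hy.2
    _ = _ := by ring

theorem sum_b0E {p a0 : ℕ} [Fact p.Prime] [CharP k p] (hqp : q = p ^ a0)
    (hQk : Fintype.card k = Q) (hqQ : q ≤ Q) {σ τ : k →+* k} (hσ : ∀ x, σ x = x ^ q)
    (hστ : ∀ x, σ (τ x) = x) (hτσ : ∀ x, τ (σ x) = x) (hr : 1 ≤ r) (hV1 : 1 ≤ V)
    (hq : 4 * (r + 1) ^ 2 ≤ q) (hρ : 2 * r + 1 ≤ ρ) (hfV : f ≤ V)
    (hf : ∀ i j, (Φ i j).natDegree ≤ f) (hlead : (Matrix.of fun i j => (Φ i j).coeff f).det ≠ 0)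
    (hΨ : Φ * Ψ = δ • (1 : Matrix (Fin r) (Fin r) k[X]))
    (hκ : ∀ P : k[X], Irreducible P → ¬ P ^ (κ + 1) ∣ δ)
    (T : Finset (Fin r → k[X])) (x γ : (Fin r → k[X]) → ℕ)
    (c : (Fin r → k[X]) → Fin r → k[X]) (G n : (Fin r → k[X]) → k[X])
    (hT : ∀ w ∈ T, (∀ b, w b ∈ PF k V) ∧
      RcE q N V f ρ (mv Φ w) (x w) (γ w) (c w) (G w) (n w) ∧ ρ < x w ∧ x w < q) :
    ∑ w ∈ T, ((KerF q N (mv Φ w)).card : ℝ) ≤ (Q : ℝ) ^ N * (9 / 8) := by
  classical
  have hR : 4 ≤ (r + 1) ^ 2 := by nlinarith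
  have hQ : (16 : ℝ) ≤ (Q : ℝ) := by
    have : 16 ≤ Q := by omega
    exact_mod_cast this
  have hQn : 0 < Q := by omega
  have hQ0 : (Q : ℝ) ≠ 0 := by linarith
  have hq0 : 0 < q := by omega
  have hmaps : ∀ w ∈ T, x w ∈ Finset.Ico (ρ + 1) q := by
    intro w hw
    rw [Finset.mem_Ico]
    have h2 := (hT w hw).2.2
    omega
  rw [← Finset.sum_fiberwise_of_maps_to hmaps]
  calc _ ≤ ∑ y ∈ Finset.Ico (ρ + 1) q, (Q : ℝ) ^ (N + 1) / (Q : ℝ) ^ (y - ρ) := by
        apply Finset.sum_le_sum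
        intro y hy
        rw [Finset.mem_Ico] at hy
        have h1 := class_card_bE (N := N) (ρ := ρ) (f := f) hqp hq0 hQk hσ hστ hτσ hf hlead hΨ hκ y 0 0 hV1
          (by omega) (T.filter (fun w => x w = y)) c G n (by
            intro w hw
            rw [Finset.mem_filter] at hw
            obtain ⟨h2, h3, _⟩ := hT w hw.1
            rw [hw.2] at h3
            have h4 := h3.hγ
            have h5 := h3.hG
            rw [Nat.div_eq_of_lt (by omega), mul_zero] at h4 h5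
            have h6 : γ w = 0 := by omega
            rw [h6] at h3
            exact ⟨h2, h3, by omega⟩)
        apply class_bound (b := r * V) (c := N + 1 + r * (y / q + 1)) hQn _
          (fun w => (KerF q N (mv Φ w)).card) h1
        · intro w hw
          rw [Finset.mem_filter] at hw
          have h2 := (hT w hw.1).2.1.hker
          rw [hw.2, hQk] at h2
          exact h2
        · have h3 := arith_b0 (r := r) (q := q) (κ := κ) (ρ := ρ) (x := y) hρ (by omega) hy.2
          have h4 : V * (r - 1) + V = r * V := by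
            obtain ⟨s, rfl⟩ : ∃ s, r = s + 1 := ⟨r - 1, by omega⟩
            rw [Nat.add_sub_cancel]; ring
          omega
    _ = (Q : ℝ) ^ N * ∑ y ∈ Finset.range (q - (ρ + 1)), 1 / (Q : ℝ) ^ y := by
        rw [Finset.sum_Ico_eq_sum_range, Finset.mul_sum]
        apply Finset.sum_congr rfl
        intro y _
        rw [show ρ + 1 + y - ρ = y + 1 by omega, pow_succ, pow_succ]
        field_simp
    _ ≤ (Q : ℝ) ^ N * (9 / 8) := by
        apply mul_le_mul_of_nonneg_left _ (by positivity)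
        exact sum_geo98 (Q : ℝ) hQ _

theorem sum_b1E {p a0 : ℕ} [Fact p.Prime] [CharP k p] (hqp : q = p ^ a0)
    (hQk : Fintype.card k = Q) (hqQ : q ≤ Q) {σ τ : k →+* k} (hσ : ∀ x, σ x = x ^ q)
    (hστ : ∀ x, σ (τ x) = x) (hτσ : ∀ x, τ (σ x) = x) (hr : 1 ≤ r) (hV1 : 1 ≤ V)
    (hq : 4 * (r + 1) ^ 2 ≤ q) (hqκ : κ + 3 * r + 4 ≤ q) (hV : 8 * (r + 1) ^ 2 * (f + 1) ≤ V)
    (hf : ∀ i j, (Φ i j).natDegree ≤ f) (hlead : (Matrix.of fun i j => (Φ i j).coeff f).det ≠ 0)
    (hΨ : Φ * Ψ = δ • (1 : Matrix (Fin r) (Fin r) k[X]))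
    (hκ : ∀ P : k[X], Irreducible P → ¬ P ^ (κ + 1) ∣ δ)
    (T : Finset (Fin r → k[X])) (x γ : (Fin r → k[X]) → ℕ)
    (c : (Fin r → k[X]) → Fin r → k[X]) (G n : (Fin r → k[X]) → k[X])
    (hT : ∀ w ∈ T, (∀ b, w b ∈ PF k V) ∧
      RcE q N V f ρ (mv Φ w) (x w) (γ w) (c w) (G w) (n w) ∧ q ≤ x w ∧
      x w < 2 * f + 4 * r + 8) :
    ∑ w ∈ T, ((KerF q N (mv Φ w)).card : ℝ) ≤ (Q : ℝ) ^ N * (81 / 64 * (81 / 64)) := by
  classical
  have hR : 4 ≤ (r + 1) ^ 2 := by nlinarith
  have hQ : (16 : ℝ) ≤ (Q : ℝ) := by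
    have : 16 ≤ Q := by omega
    exact_mod_cast this
  have hQn : 0 < Q := by omega
  have hQ0 : (0 : ℝ) < (Q : ℝ) := by linarith
  have hq0 : 0 < q := by omega
  set B := r * (V + f) + (V + f) + 1 with hB
  have hmaps : ∀ w ∈ T, (x w, γ w, (G w).natDegree) ∈
      Finset.Ico q (V + f) ×ˢ (Finset.range B ×ˢ Finset.range B) := by
    intro w hw
    obtain ⟨h2, h3, h4, h5⟩ := hT w hw
    have h6 := h3.hn
    have h7 := h3.hγ
    have h8 := h3.hG
    have h9 : x w / q ≤ V + f := (Nat.div_le_self _ _).trans (by omega)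
    have h10 : r * (x w / q) ≤ r * (V + f) := Nat.mul_le_mul_left _ h9
    rw [Finset.mem_product, Finset.mem_product, Finset.mem_Ico, Finset.mem_range,
      Finset.mem_range]
    simp only
    omega
  rw [← Finset.sum_fiberwise_of_maps_to hmaps]
  calc _ ≤ ∑ p ∈ Finset.Ico q (V + f) ×ˢ (Finset.range B ×ˢ Finset.range B),
        (Q : ℝ) ^ (N + 1) / (Q : ℝ) ^ (p.2.2 + p.2.1 + (p.1 / q + p.1 % q)) := by
        apply Finset.sum_le_sum
        rintro ⟨y, g, d⟩ hp
        rw [Finset.mem_product, Finset.mem_Ico] at hp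
        simp only at hp ⊢
        rcases (T.filter (fun w => (x w, γ w, (G w).natDegree) = (y, g, d))).eq_empty_or_nonempty
          with h0 | ⟨w1, hw1⟩
        · rw [h0, Finset.sum_empty]; positivity
        have hmem : ∀ w ∈ T.filter (fun w => (x w, γ w, (G w).natDegree) = (y, g, d)),
            (∀ b, w b ∈ PF k V) ∧ RcE q N V f ρ (mv Φ w) y g (c w) (G w) (n w) ∧
            (G w).natDegree = d ∧ y < 2 * f + 4 * r + 8 := by
          intro w hw
          rw [Finset.mem_filter, Prod.mk.injEq, Prod.mk.injEq] at hw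
          obtain ⟨hw1, hw2, hw3, hw4⟩ := hw
          obtain ⟨h2, h3, h4, h5⟩ := hT w hw1
          rw [hw2, hw3] at h3
          exact ⟨h2, h3, hw4, by omega⟩
        obtain ⟨_, hr1, hd1, hy1⟩ := hmem w1 hw1
        have h1 := class_card_bE (N := N) (ρ := ρ) (f := f) hqp hq0 hQk hσ hστ hτσ hf hlead hΨ hκ y g d hV1
          (arith_room hV hy1 hr1.hγ)
          (T.filter (fun w => (x w, γ w, (G w).natDegree) = (y, g, d))) c G n
          (fun w hw => ⟨(hmem w hw).1, (hmem w hw).2.1, (hmem w hw).2.2.1⟩)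
        apply class_bound (b := r * V) (c := N + 1 + r * (y / q + 1)) hQn _
          (fun w => (KerF q N (mv Φ w)).card) h1
        · intro w hw
          have h2 := (hmem w hw).2.1.hker
          rw [hQk] at h2
          exact h2
        · have h3 := arith_b1 (r := r) (q := q) (κ := κ) (x := y) (γ := g) (d := d) hqκ hp.1.1
            (by rw [← hd1]; exact hr1.hGγ)
          have h4 : V * (r - 1) + V = r * V := by
            obtain ⟨s, rfl⟩ : ∃ s, r = s + 1 := ⟨r - 1, by omega⟩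
            rw [Nat.add_sub_cancel]; ring
          generalize y / q + y % q = hh at h3 ⊢
          omega
    _ = (Q : ℝ) ^ (N + 1) * ((∑ y ∈ Finset.Ico q (V + f), 1 / (Q : ℝ) ^ (y / q + y % q)) *
        ((∑ g ∈ Finset.range B, 1 / (Q : ℝ) ^ g) * (∑ d ∈ Finset.range B, 1 / (Q : ℝ) ^ d))) := by
        rw [Finset.sum_mul_sum (Finset.range B) (Finset.range B), ← Finset.sum_product',
          Finset.sum_mul_sum, ← Finset.sum_product', Finset.mul_sum]
        apply Finset.sum_congr rfl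
        rintro ⟨y, g, d⟩ _
        show (Q : ℝ) ^ (N + 1) / (Q : ℝ) ^ (d + g + (y / q + y % q)) =
          (Q : ℝ) ^ (N + 1) * (1 / (Q : ℝ) ^ (y / q + y % q) *
            (1 / (Q : ℝ) ^ g * (1 / (Q : ℝ) ^ d)))
        rw [pow_add (Q : ℝ) (d + g), pow_add (Q : ℝ) d g, one_div, one_div, one_div,
          div_eq_mul_inv, mul_inv, mul_inv]
        ring
    _ ≤ (Q : ℝ) ^ (N + 1) * ((81 / 64 / (Q : ℝ)) * ((9 / 8) * (9 / 8))) := by
        apply mul_le_mul_of_nonneg_left _ (by positivity)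
        apply mul_le_mul (sum_floor98 (Q : ℝ) hQ q _ hq0) _ _ (by positivity)
        · apply mul_le_mul (sum_geo98 (Q : ℝ) hQ _) (sum_geo98 (Q : ℝ) hQ _) _ (by norm_num)
          exact Finset.sum_nonneg (fun x _ => by positivity)
        · apply mul_nonneg
          · exact Finset.sum_nonneg (fun x _ => by positivity)
          · exact Finset.sum_nonneg (fun x _ => by positivity)
    _ = _ := by
        rw [pow_succ]
        field_simp
        norm_num

end Pool.Agent.Y813.CntE
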