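import Pool.Agent.Y709.GStm4
import Pool.Agent.Y515.CntS.SumLow
import Pool.Agent.Y515.CntD.Arith

/-!
Semilinear version of the count without a bound on the degree of the matrix (after `CntD.Low` and
`CntS.SumLow`): fixed vectors are short, and the sum over the vectors whose components do not span.
-/

set_option autoImplicit false
set_option linter.unusedSectionVars false

open Polynomial Finset
open Pool.Agent.Y709 Pool.Agent.Y515.Cnt Pool.Agent.Y515.CntG Pool.Agent.Y515.CntS

namespace Pool.Agent.Y813.CntE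

variable {k : Type} [Field k] [Fintype k]

/-- fixed vectors have small degree -/
theorem fixed_boundE {r q N V f ρ : ℕ} (hq0 : 1 < q) {σ : k →+* k}
    {Φ : Matrix (Fin r) (Fin r) k[X]}
    (hf : ∀ i j, (Φ i j).natDegree ≤ f) (hρ : ρ + 2 ≤ q)
    (hN : N + f = (q - 1) * V + ρ)
    {D : k[X]} (hD : D.natDegree ≤ N) {w : Fin r → k[X]} (hw : IsFixS q σ Φ D w) (i : Fin r) :
    w i ∈ PF k V := by
  classical
  apply mem_PF_of_natDegree
  intro hi
  obtain ⟨m, _, hm⟩ := Finset.exists_max_image Finset.univ (fun j => (w j).natDegree)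
    ⟨i, Finset.mem_univ i⟩
  have hmi := hm i (Finset.mem_univ i)
  have key : ∀ j, w j ≠ 0 → (w j).natDegree = (w m).natDegree → (w m).natDegree < V := by
    intro j hj hjm
    have h1 : cart q (D * ∑ a, Φ j a * w a) ≠ 0 := by
      rw [hw j]; exact (Polynomial.map_ne_zero_iff σ.injective).2 hj
    have h2 := natDegree_cart' (by omega) h1
    rw [hw j, Polynomial.natDegree_map_eq_of_injective σ.injective] at h2
    have h3 : (D * ∑ a, Φ j a * w a).natDegree ≤ N + (f + (w m).natDegree) := by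
      refine natDegree_mul_le.trans (Nat.add_le_add hD ?_)
      apply natDegree_sum_le_of_forall_le
      intro a _
      exact natDegree_mul_le.trans (Nat.add_le_add (hf j a) (hm a (Finset.mem_univ a)))
    rw [hjm] at h2
    have h4 := h2.trans h3
    by_contra hcon
    rw [not_lt] at hcon
    obtain ⟨t, rfl⟩ : ∃ t, q = t + 1 := ⟨q - 1, by omega⟩
    rw [Nat.add_sub_cancel] at *
    have h5 : t * V ≤ t * (w m).natDegree := Nat.mul_le_mul_left t hcon
    have h6 : (t + 1) * (w m).natDegree = t * (w m).natDegree + (w m).natDegree := by ring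
    rw [h6] at h4
    omega
  by_cases h0 : w m = 0
  · have h1 : (w i).natDegree = (w m).natDegree := by
      rw [h0, natDegree_zero] at hmi ⊢
      omega
    have := key i hi h1
    omega
  · have := key m h0 rfl
    omega

/-- the number of vectors with given components -/
theorem fiber_leE {r s q V : ℕ} {σ τ : k →+* k} (hστ : ∀ x, σ (τ x) = x)
    {Φ : Matrix (Fin r) (Fin r) k[X]} (hirr : IrrXS q σ Φ)
    (u : Fin s → Fin r → k[X]) (W : Finset (Fin r → k[X]))
    (hW : ∀ w ∈ W, (∀ b, w b ∈ PF k V) ∧ w ≠ 0 ∧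
      (∀ L : Fin r → k[X], (∀ l, ∑ b, L b * u l b = 0) → ∑ b, expand k q (L b) * mv Φ w b = 0) ∧
      (∀ L : Fin r → k[X], ∑ b, expand k q (L b) * mv Φ w b = 0 →
        ∑ b, L b * (w b).map σ = 0) ∧
      (∃ L : Fin r → k[X], L ≠ 0 ∧ ∀ l, ∑ b, L b * u l b = 0)) :
    W.card ≤ (Fintype.card k ^ V) ^ (s - 1) := by
  classical
  rcases W.eq_empty_or_nonempty with h0 | ⟨w0, hw0⟩
  · rw [h0]; simp
  obtain ⟨_, hw0ne, hw01, hw02, L0, hL0, hL0u⟩ := hW w0 hw0
  set u' : Fin s → Fin r → k[X] := fun l b => (u l b).map τ with hu'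
  -- functionals on the twisted vectors
  have hup : ∀ L : Fin r → k[X], (∀ l, ∑ b, L b * u' l b = 0) →
      ∀ l, ∑ b, (L b).map σ * u l b = 0 := by
    intro L hL l
    have h2 := congrArg (Polynomial.map σ) (hL l)
    rw [Polynomial.map_zero, Polynomial.map_sum] at h2
    rw [← h2]
    apply Finset.sum_congr rfl
    intro b _
    rw [Polynomial.map_mul]
    simp only [hu']
    rw [map_map_id hστ]
  have hdown : ∀ w ∈ W, ∀ L : Fin r → k[X], (∀ l, ∑ b, L b * u' l b = 0) →
      ∑ b, L b * w b = 0 := by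
    intro w hw L hL
    obtain ⟨_, _, hw1, hw2, _⟩ := hW w hw
    have h1 := hw2 _ (hw1 _ (hup L hL))
    have h2 : (∑ b, L b * w b).map σ = 0 := by
      rw [Polynomial.map_sum, ← h1]
      apply Finset.sum_congr rfl
      intro b _
      rw [Polynomial.map_mul]
    exact (Polynomial.map_eq_zero_iff σ.injective).1 h2
  have hL0u' : ∀ l, ∑ b, (L0 b).map τ * u' l b = 0 := by
    intro l
    have h2 := congrArg (Polynomial.map τ) (hL0u l)
    rw [Polynomial.map_zero, Polynomial.map_sum] at h2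
    rw [← h2]
    apply Finset.sum_congr rfl
    intro b _
    rw [Polynomial.map_mul]
  have hL0' : (fun b => (L0 b).map τ) ≠ 0 := by
    intro h
    apply hL0
    ext1 b
    exact (Polynomial.map_eq_zero_iff τ.injective).1 (congrFun h b)
  obtain ⟨x, hx1, L, hL, hx2⟩ := hirr
    {L : Fin r → k[X] | ∀ l, ∑ b, L b * u' l b = 0} (fun b => (L0 b).map τ) w0 hL0u' hL0' hw0ne
    (fun L hL => hdown w0 hw0 L hL)
  set Qu : Submodule (FractionRing k[X]) (Fin r → FractionRing k[X]) :=
    Submodule.span _ (Set.range (fun l => io (FractionRing k[X]) (u' l))) with hQu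
  set Q : Submodule (FractionRing k[X]) (Fin r → FractionRing k[X]) :=
    Submodule.span _ (io (FractionRing k[X]) '' (W : Set (Fin r → k[X]))) with hQ
  have hin : ∀ y : Fin r → k[X], (∀ L : Fin r → k[X], (∀ l, ∑ b, L b * u' l b = 0) →
      ∑ b, L b * y b = 0) → io (FractionRing k[X]) y ∈ Qu := by
    intro y hy
    by_contra hcon
    obtain ⟨L, hL, hLy⟩ := exists_sep (FractionRing k[X]) Qu hcon
    apply hLy
    apply hy
    intro l
    apply hL
    exact Submodule.subset_span ⟨l, rfl⟩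
  have hle : Q ≤ Qu := by
    rw [hQ, Submodule.span_le]
    rintro _ ⟨w, hw, rfl⟩
    exact hin w (fun L hL => hdown w hw L hL)
  have hxu : io (FractionRing k[X]) x ∈ Qu := hin x hx1
  have hxQ : io (FractionRing k[X]) x ∉ Q := by
    intro hxQ
    apply hx2
    have hswap : ∀ y : Fin r → k[X], ∑ b, expand k q ((L b).map σ) * mv Φ y b =
        ∑ j, (∑ b, expand k q ((L b).map σ) * Φ b j) * y j := by
      intro y
      unfold mv
      simp only [Finset.mul_sum, Finset.sum_mul]
      rw [Finset.sum_comm]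
      apply Finset.sum_congr rfl
      intro j _
      apply Finset.sum_congr rfl
      intro b _
      ring
    have hx3 : ∑ b, expand k q ((L b).map σ) * mv Φ x b = 0 := by
      rw [hswap]
      apply rel_span (FractionRing k[X]) (W : Set (Fin r → k[X])) _ _ hxQ
      intro w hw
      rw [← hswap]
      exact (hW w hw).2.2.1 _ (hup L hL)
    exact hx3
  have hlt : Q < Qu := lt_of_le_of_ne hle (fun h => hxQ (h ▸ hxu))
  have h1 := Submodule.finrank_lt_finrank_of_lt hlt
  have h2 : Module.finrank (FractionRing k[X]) Qu ≤ s := by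
    have := finrank_range_le_card (R := FractionRing k[X])
      (fun l => io (FractionRing k[X]) (u' l))
    rw [Fintype.card_fin] at this
    exact this
  have h3 := card_le_of_subspace (FractionRing k[X]) (M := V) Q W (fun w hw =>
    ⟨(hW w hw).1, Submodule.subset_span ⟨w, hw, rfl⟩⟩)
  refine h3.trans ?_
  have hpos : 0 < Fintype.card k := Fintype.card_pos
  apply Nat.pow_le_pow_right (by positivity)
  omega

theorem sum_lowE {r q Q f V N ρ : ℕ} (hQk : Fintype.card k = Q) (hqQ : q ≤ Q)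
    {σ τ : k →+* k} (hστ : ∀ x, σ (τ x) = x)
    {Φ : Matrix (Fin r) (Fin r) k[X]} (hdet : Φ.det ≠ 0)
    (hirr : IrrXS q σ Φ) (hf : ∀ i j, (Φ i j).natDegree ≤ f)
    (hq : 4 * (r + 1) ^ 2 ≤ q) (hV : 8 * (r + 1) ^ 2 * (f + 1) ≤ V)
    (hN : N + f = (q - 1) * V + ρ) (hN1 : 1 ≤ N) (T : Finset (Fin r → k[X]))
    (hT : ∀ w ∈ T, (∀ b, w b ∈ PF k V) ∧ w ≠ 0 ∧ (∃ D, IsFixS q σ Φ D w) ∧
      ∃ L : Fin r → k[X], L ≠ 0 ∧ ∑ b, expand k q (L b) * mv Φ w b = 0) :
    ∑ w ∈ T, ((FixS q N σ Φ w).card : ℝ) ≤ (Q : ℝ) ^ N := by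
  classical
  have hR : 1 ≤ (r + 1) ^ 2 := Nat.one_le_iff_ne_zero.2 (by positivity)
  have hq0 : 0 < q := by omega
  have hV1 : 1 ≤ V := by
    refine le_trans ?_ hV
    have : 1 * 1 ≤ (8 * (r + 1) ^ 2) * (f + 1) := Nat.mul_le_mul (by omega) (by omega)
    omega
  have hqR : (1 : ℝ) ≤ (Q : ℝ) := by
    have : 1 ≤ Q := by omega
    exact_mod_cast this
  choose s i hi hind hrel hs1 hs2 using fun w : Fin r → k[X] => exists_comps hq0 (mv Φ w)
  have hs : ∀ w ∈ T, s w ∈ Finset.Ico 1 r := by
    intro w hw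
    obtain ⟨_, h2, _, h4⟩ := hT w hw
    rw [Finset.mem_Ico]
    exact ⟨hs2 w (mv_ne_zero hdet h2), hs1 w h4⟩
  rw [← Finset.sum_fiberwise_of_maps_to hs]
  have hterm : ∀ t ∈ Finset.Ico 1 r,
      ∑ w ∈ T with s w = t, ((FixS q N σ Φ w).card : ℝ) ≤ (Q : ℝ) ^ (N - 1) := by
    intro t ht
    rw [Finset.mem_Ico] at ht
    set T' := T.filter (fun w => s w = t) with hT'
    have hsub : ∀ w ∈ T', w ∈ T ∧ s w = t := by
      intro w hw; rw [hT', Finset.mem_filter] at hw; exact hw
    let u : (Fin r → k[X]) → Fin t → Fin r → k[X] := fun w l =>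
      if h : (l : ℕ) < s w then vcp q (i w ⟨l, h⟩) (mv Φ w) else 0
    have himg : T'.image u ⊆ Fintype.piFinset (fun _ : Fin t => Fintype.piFinset
        (fun _ : Fin r => PF k ((V - 1 + f) / q + 1))) := by
      intro x hx
      rw [Finset.mem_image] at hx
      obtain ⟨w, hw, rfl⟩ := hx
      rw [Fintype.mem_piFinset]
      intro l
      rw [Fintype.mem_piFinset]
      intro b
      have hl : (l : ℕ) < s w := by rw [(hsub w hw).2]; exact l.2
      simp only [u]
      rw [dif_pos hl, mem_PF_succ]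
      unfold vcp
      refine (natDegree_cp hq0 (hi w _) _).trans ?_
      exact Nat.div_le_div_right (natDegree_mv_le hf hV1 (hT w (hsub w hw).1).1 b)
    have hfib : ∀ x ∈ T'.image u, (T'.filter (fun w => u w = x)).card ≤ (Q ^ V) ^ (t - 1) := by
      intro x _
      rw [← hQk]
      apply fiber_leE hστ hirr x
      intro w hw
      rw [Finset.mem_filter] at hw
      obtain ⟨hwT', hux⟩ := hw
      obtain ⟨hwT, hst⟩ := hsub w hwT'
      obtain ⟨h1, h2, ⟨D, hD⟩, L, hL0, hL⟩ := hT w hwT
      have hxl : ∀ (l : Fin (s w)), ∀ (h : (l : ℕ) < t), x ⟨l, h⟩ = vcp q (i w l) (mv Φ w) := by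
        intro l h
        rw [← hux]
        simp only [u]
        rw [dif_pos l.2]
      refine ⟨h1, h2, ?_, ?_, L, hL0, ?_⟩
      · intro L' hL'
        apply hrel
        intro l
        have h := hL' ⟨l, by rw [← hst]; exact l.2⟩
        rw [hxl l] at h
        exact h
      · intro L' hL'
        have h := rel_cart hq0 hL' D
        rw [← h]
        apply Finset.sum_congr rfl
        intro b _
        congr 1
        exact (hD b).symm
      · intro l
        have hl : (l : ℕ) < s w := by rw [hst]; exact l.2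
        have h := hxl ⟨l, hl⟩ l.2
        simp only [Fin.eta] at h
        rw [h]
        exact (rel_iff hq0 _ _).1 hL _ (hi w _)
    have hcard := Finset.card_le_mul_card_image T' _ hfib
    have hcard2 := Finset.card_le_card himg
    rw [Fintype.card_piFinset, Finset.prod_const, Fintype.card_piFinset, Finset.prod_const,
      card_PF, Finset.card_univ, Fintype.card_fin, Finset.card_univ, Fintype.card_fin, hQk] at hcard2
    have hcard3 : T'.card ≤ Q ^ (V * (t - 1) + ((V - 1 + f) / q + 1) * (r * t)) := by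
      refine (hcard.trans (Nat.mul_le_mul_left _ hcard2)).trans (le_of_eq ?_)
      rw [← pow_mul, ← pow_mul, ← pow_mul, ← pow_add]
    have hone : ∀ w ∈ T', ((FixS q N σ Φ w).card : ℝ) ≤
        (Q : ℝ) ^ (N + 1) / (Q : ℝ) ^ (t * ((N + 1) / q)) := by
      intro w hw
      have h1 := ker_indepQ hq0 (N := N) (mv Φ w) (i w) (hi w) (hind w)
      have h2 := card_fixS_le (N := N) hq0 σ Φ w
      rw [(hsub w hw).2, hQk] at h1
      rw [le_div_iff₀ (by positivity)]
      calc ((FixS q N σ Φ w).card : ℝ) * (Q : ℝ) ^ (t * ((N + 1) / q)) ≤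
          ((KerF q N (mv Φ w)).card : ℝ) * (Q : ℝ) ^ (t * ((N + 1) / q)) := by
            apply mul_le_mul_of_nonneg_right _ (by positivity)
            exact_mod_cast h2
        _ ≤ (Q : ℝ) ^ (N + 1) := by exact_mod_cast h1
    calc ∑ w ∈ T', ((FixS q N σ Φ w).card : ℝ) ≤
        ∑ w ∈ T', (Q : ℝ) ^ (N + 1) / (Q : ℝ) ^ (t * ((N + 1) / q)) := Finset.sum_le_sum hone
      _ = (T'.card : ℝ) * ((Q : ℝ) ^ (N + 1) / (Q : ℝ) ^ (t * ((N + 1) / q))) := by
          rw [Finset.sum_const, nsmul_eq_mul]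
      _ ≤ (Q : ℝ) ^ (V * (t - 1) + ((V - 1 + f) / q + 1) * (r * t)) *
          ((Q : ℝ) ^ (N + 1) / (Q : ℝ) ^ (t * ((N + 1) / q))) := by
          apply mul_le_mul_of_nonneg_right _ (by positivity)
          exact_mod_cast hcard3
      _ ≤ (Q : ℝ) ^ (N - 1) := by
          rw [← mul_div_assoc, div_le_iff₀ (by positivity), ← pow_add, ← pow_add]
          apply pow_le_pow_right₀ hqR
          have := (Pool.Agent.Y515.CntD.arith_low hq hV hN ht.2).resolve_right (by omega)
          omega
  calc _ ≤ ∑ t ∈ Finset.Ico 1 r, (Q : ℝ) ^ (N - 1) := Finset.sum_le_sum hterm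
    _ = ((r - 1 : ℕ) : ℝ) * (Q : ℝ) ^ (N - 1) := by
        rw [Finset.sum_const, Nat.card_Ico, nsmul_eq_mul]
    _ ≤ (Q : ℝ) * (Q : ℝ) ^ (N - 1) := by
        apply mul_le_mul_of_nonneg_right _ (by positivity)
        have : r - 1 ≤ Q := by nlinarith [Nat.sub_le r 1]
        exact_mod_cast this
    _ = (Q : ℝ) ^ N := by
        rw [← pow_succ']
        congr 1
        omega

end Pool.Agent.Y813.CntE
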