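import Pool.Agent.Y813.CntE.Indep
import Pool.Agent.Y515.CntS.Irred
import Pool.Agent.Y709.Gen.LatC

/-!
The count without a bound on the degree of the matrix, over an extension of the field with `q`
elements (semilinear version of `Pool.Agent.Y515.cntDet`).
-/

set_option autoImplicit false
set_option linter.unusedSectionVars false

open Polynomial Finset
open Pool.Agent.Y709 Pool.Agent.Y515.Cnt Pool.Agent.Y515.CntG Pool.Agent.Y515.CntS

namespace Pool.Agent.Y813.CntE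

variable {k : Type} [Field k] [Fintype k]

theorem bad_leE {r q s f κ ρ V N : ℕ} (hqk : Fintype.card k = q ^ s) (hs : 0 < s) {p a0 : ℕ}
    [Fact p.Prime] [CharP k p] (hqp : q = p ^ a0) {σ τ : k →+* k} (hσ : ∀ x, σ x = x ^ q)
    (hστ : ∀ x, σ (τ x) = x) (hτσ : ∀ x, τ (σ x) = x) (hr : 1 ≤ r)
    (hlat : LatGen k q r) (Φ Ψ : Matrix (Fin r) (Fin r) k[X]) (δ : k[X])
    (hf : ∀ i j, (Φ i j).natDegree ≤ f) (hlead : (Matrix.of fun i j => (Φ i j).coeff f).det ≠ 0)
    (hδ : δ ≠ 0) (hΨ : Φ * Ψ = δ • (1 : Matrix (Fin r) (Fin r) k[X]))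
    (hκ : ∀ P : k[X], Irreducible P → ¬ P ^ (κ + 1) ∣ δ) (hirr : IrrXS q σ Φ)
    (hqκ : κ + 3 * r + 4 ≤ q) (hq : 4 * (r + 1) ^ 2 ≤ q) (hρr : 2 * r + 1 ≤ ρ) (hρ : ρ + 2 ≤ q)
    (hV : 8 * (r + 1) ^ 2 * (f + 1) ≤ V) (hN : N + f = (q - 1) * V + ρ) :
    q * (BadS q N σ Φ).card ≤ 2 * Fintype.card k ^ (N + 1) := by
  classical
  have hR : 4 ≤ (r + 1) ^ 2 := by nlinarith
  have hqQ : q ≤ Fintype.card k := by
    rw [hqk]
    exact Nat.le_self_pow (by omega) q
  set Q := Fintype.card k with hQdef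
  have hQk : Fintype.card k = Q := hQdef.symm
  have hQ : (16 : ℝ) ≤ (Q : ℝ) := by
    have : 16 ≤ Q := by omega
    exact_mod_cast this
  have hQ0 : (0 : ℝ) < (Q : ℝ) := by linarith
  have hq16 : (16 : ℝ) ≤ (q : ℝ) := by
    have : 16 ≤ q := by omega
    exact_mod_cast this
  have hq0 : 0 < q := by omega
  have hVf : 8 * (f + 1) ≤ V := by
    refine le_trans ?_ hV
    have : 8 * (f + 1) * 1 ≤ 8 * (f + 1) * (r + 1) ^ 2 := Nat.mul_le_mul_left _ (by omega)
    calc 8 * (f + 1) ≤ 8 * (f + 1) * (r + 1) ^ 2 := by omega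
      _ = 8 * (r + 1) ^ 2 * (f + 1) := by ring
  have hV1 : 1 ≤ V := by omega
  have hN1 : 1 ≤ N := by
    have : 2 * V ≤ (q - 1) * V := Nat.mul_le_mul_right _ (by omega)
    omega
  have hdet : Φ.det ≠ 0 := by
    intro h0
    have h1 := congrArg Matrix.det hΨ
    rw [Matrix.det_mul, h0, zero_mul, Matrix.det_smul, Matrix.det_one, mul_one] at h1
    exact pow_ne_zero _ hδ h1.symm
  set T : Finset (Fin r → k[X]) := (Fintype.piFinset (fun _ : Fin r => PF k V)).filter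
    (fun w => w ≠ 0 ∧ ∃ D : k[X], D.natDegree ≤ N ∧ IsFixS q σ Φ D w) with hT
  have hTmem : ∀ w ∈ T, (∀ b, w b ∈ PF k V) ∧ w ≠ 0 ∧
      ∃ D : k[X], D.natDegree ≤ N ∧ IsFixS q σ Φ D w := by
    intro w hw
    rw [hT, Finset.mem_filter, Fintype.mem_piFinset] at hw
    exact hw
  -- double counting
  have hdouble : (q - 1) * (BadS q N σ Φ).card ≤ ∑ w ∈ T, (FixS q N σ Φ w).card := by
    have h1 : ∑ w ∈ T, (FixS q N σ Φ w).card =
        ∑ D ∈ PF k (N + 1), (T.filter (fun w => IsFixS q σ Φ D w)).card := by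
      simp only [FixS, Finset.card_filter]
      rw [Finset.sum_comm]
    rw [h1]
    calc (q - 1) * (BadS q N σ Φ).card = ∑ D ∈ BadS q N σ Φ, (q - 1) := by
          rw [Finset.sum_const, smul_eq_mul, mul_comm]
      _ ≤ ∑ D ∈ BadS q N σ Φ, (T.filter (fun w => IsFixS q σ Φ D w)).card := by
          apply Finset.sum_le_sum
          intro D hD
          rw [mem_BadS] at hD
          obtain ⟨hDN, w, hw0, hfix⟩ := hD
          have hcu := card_fixed (k := k) (by omega) hs hqk hσ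
          refine hcu.trans ?_
          obtain ⟨b, hb⟩ : ∃ b, w b ≠ 0 := by
            by_contra hcon
            push Not at hcon
            exact hw0 (funext hcon)
          apply Finset.card_le_card_of_injOn (fun c : k => fun i => C c * w i)
          · intro c hc
            rw [Finset.mem_coe, Finset.mem_filter] at hc
            have hfc := isFixS_smul hq0 hfix c hc.2.2
            rw [Finset.mem_coe, Finset.mem_filter]
            refine ⟨?_, hfc⟩
            rw [hT, Finset.mem_filter, Fintype.mem_piFinset]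
            refine ⟨fun i => fixed_boundE (by omega) hf hρ hN hDN hfc i, ?_, D, hDN, hfc⟩
            intro h0
            have h1 := congrFun h0 b
            have hC : (C c : k[X]) ≠ 0 := C_ne_zero.2 hc.2.1
            exact (mul_ne_zero hC hb) h1
          · intro c _ c' _ h
            have h1 := congrFun h b
            exact C_injective (mul_right_cancel₀ hb h1)
      _ ≤ _ := by
          apply Finset.sum_le_sum_of_subset
          intro D hD
          rw [mem_BadS] at hD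
          rw [mem_PF_succ]
          exact hD.1
  -- splitting the sum
  set T1 := T.filter (fun w => ∃ L : Fin r → k[X], L ≠ 0 ∧ ∑ b, expand k q (L b) * mv Φ w b = 0)
    with hT1
  set T2 := T.filter (fun w => ¬ ∃ L : Fin r → k[X], L ≠ 0 ∧ ∑ b, expand k q (L b) * mv Φ w b = 0)
    with hT2
  have hex : ∀ w ∈ T2, ∃ R : (ℕ × ℕ) × (Fin r → k[X]) × k[X] × k[X],
      RcE q N V f ρ (mv Φ w) R.1.1 R.1.2 R.2.1 R.2.2.1 R.2.2.2 := by
    intro w hw
    rw [hT2, Finset.mem_filter] at hw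
    have hww := hTmem w hw.1
    obtain ⟨x, γ, c, G, n, h⟩ := exists_rcE hr hlat hq hρ hV hN (mv Φ w)
      (natDegree_mv_le hf hV1 hww.1) (by
        intro a ha
        by_contra hne
        exact hw.2 ⟨a, hne, ha⟩)
    exact ⟨((x, γ), c, G, n), h⟩
  have hnonempty : Nonempty ((ℕ × ℕ) × (Fin r → k[X]) × k[X] × k[X]) := ⟨((0, 0), 0, 0, 0)⟩
  choose! R hRc using hex
  have hT2P : ∀ w ∈ T2, (∀ b, w b ∈ PF k V) := by
    intro w hw
    rw [hT2, Finset.mem_filter] at hw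
    exact (hTmem w hw.1).1
  have s1 : ∑ w ∈ T1, ((FixS q N σ Φ w).card : ℝ) ≤ (Q : ℝ) ^ N := by
    apply sum_lowE hQk hqQ hστ hdet hirr hf hq hV hN hN1
    intro w hw
    rw [hT1, Finset.mem_filter] at hw
    obtain ⟨h1, h2, D, _, hD⟩ := hTmem w hw.1
    exact ⟨h1, h2, ⟨D, hD⟩, hw.2⟩
  have s2 : ∑ w ∈ T2, ((KerF q N (mv Φ w)).card : ℝ) ≤
      (Q : ℝ) ^ (N + 1) + (2 * ((Q : ℝ) ^ (N + 1) / (Q : ℝ) ^ 2) +
        ((Q : ℝ) ^ N * (9 / 8) + (Q : ℝ) ^ N * (81 / 64 * (81 / 64)))) := by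
    rw [← Finset.sum_filter_add_sum_filter_not T2 (fun w => (R w).1.1 ≤ ρ)]
    apply add_le_add
    · apply sum_zeroE hQk _ (fun w => (R w).1.1) (fun w => (R w).1.2) (fun w => (R w).2.1)
        (fun w => (R w).2.2.1) (fun w => (R w).2.2.2)
      intro w hw
      rw [Finset.mem_filter] at hw
      exact ⟨hT2P w hw.1, hRc w hw.1, hw.2⟩
    · rw [← Finset.sum_filter_add_sum_filter_not (T2.filter (fun w => ¬ (R w).1.1 ≤ ρ))
        (fun w => 2 * f + 4 * r + 8 ≤ (R w).1.1)]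
      apply add_le_add
      · apply sum_aE hQk hqQ hr hdet hV1 hq _ (fun w => (R w).1.1) (fun w => (R w).1.2)
          (fun w => (R w).2.1) (fun w => (R w).2.2.1) (fun w => (R w).2.2.2)
        intro w hw
        rw [Finset.mem_filter, Finset.mem_filter] at hw
        exact ⟨hT2P w hw.1.1, hRc w hw.1.1, hw.2⟩
      · rw [← Finset.sum_filter_add_sum_filter_not
          ((T2.filter (fun w => ¬ (R w).1.1 ≤ ρ)).filter
            (fun w => ¬ 2 * f + 4 * r + 8 ≤ (R w).1.1)) (fun w => (R w).1.1 < q)]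
        apply add_le_add
        · apply sum_b0E hqp hQk hqQ hσ hστ hτσ hr hV1 hq hρr (by omega) hf hlead hΨ hκ _
            (fun w => (R w).1.1) (fun w => (R w).1.2)
            (fun w => (R w).2.1) (fun w => (R w).2.2.1) (fun w => (R w).2.2.2)
          intro w hw
          rw [Finset.mem_filter, Finset.mem_filter, Finset.mem_filter] at hw
          exact ⟨hT2P w hw.1.1.1, hRc w hw.1.1.1, by omega, hw.2⟩
        · apply sum_b1E hqp hQk hqQ hσ hστ hτσ hr hV1 hq hqκ hV hf hlead hΨ hκ _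
            (fun w => (R w).1.1) (fun w => (R w).1.2)
            (fun w => (R w).2.1) (fun w => (R w).2.2.1) (fun w => (R w).2.2.2)
          intro w hw
          rw [Finset.mem_filter, Finset.mem_filter, Finset.mem_filter] at hw
          exact ⟨hT2P w hw.1.1.1, hRc w hw.1.1.1, by omega, by omega⟩
  have hsmall : 2 * ((Q : ℝ) ^ (N + 1) / (Q : ℝ) ^ 2) ≤ (Q : ℝ) ^ N / 8 := by
    rw [pow_succ, pow_two]
    have : (Q : ℝ) ^ N * (Q : ℝ) / ((Q : ℝ) * (Q : ℝ)) = (Q : ℝ) ^ N / (Q : ℝ) := by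
      field_simp
    rw [this]
    have h2 : (Q : ℝ) ^ N / (Q : ℝ) ≤ (Q : ℝ) ^ N / 16 :=
      div_le_div_of_nonneg_left (by positivity) (by norm_num) hQ
    linarith
  have hpos : (0 : ℝ) < (Q : ℝ) ^ N := by positivity
  have hsum : ∑ w ∈ T, ((FixS q N σ Φ w).card : ℝ) ≤ (Q : ℝ) ^ (N + 1) + 4 * (Q : ℝ) ^ N := by
    rw [← Finset.sum_filter_add_sum_filter_not T
      (fun w => ∃ L : Fin r → k[X], L ≠ 0 ∧ ∑ b, expand k q (L b) * mv Φ w b = 0)]
    have s3 : ∑ w ∈ T2, ((FixS q N σ Φ w).card : ℝ) ≤ ∑ w ∈ T2, ((KerF q N (mv Φ w)).card : ℝ) := by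
      apply Finset.sum_le_sum
      intro w _
      exact_mod_cast card_fixS_le hq0 σ Φ w
    have := s3.trans s2
    linarith
  have hfinal : ((q : ℝ) - 1) * ((BadS q N σ Φ).card : ℝ) ≤
      (Q : ℝ) ^ (N + 1) + 4 * (Q : ℝ) ^ N := by
    have h1 : (((q - 1) * (BadS q N σ Φ).card : ℕ) : ℝ) ≤
        ((∑ w ∈ T, (FixS q N σ Φ w).card : ℕ) : ℝ) := by
      exact_mod_cast hdouble
    rw [Nat.cast_mul, Nat.cast_sub (by omega), Nat.cast_one, Nat.cast_sum] at h1
    exact h1.trans hsum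
  have hRR : (q : ℝ) * ((BadS q N σ Φ).card : ℝ) ≤ 2 * (Q : ℝ) ^ (N + 1) := by
    have hqQR : (q : ℝ) ≤ (Q : ℝ) := by exact_mod_cast hqQ
    have h3 : (q : ℝ) * (Q : ℝ) ^ N ≤ (Q : ℝ) ^ (N + 1) := by
      rw [pow_succ, mul_comm]
      exact mul_le_mul_of_nonneg_left hqQR hpos.le
    have h4 : ((q : ℝ) - 1) * ((q : ℝ) * ((BadS q N σ Φ).card : ℝ)) ≤
        ((q : ℝ) - 1) * (2 * (Q : ℝ) ^ (N + 1)) := by
      calc ((q : ℝ) - 1) * ((q : ℝ) * ((BadS q N σ Φ).card : ℝ)) =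
          (q : ℝ) * (((q : ℝ) - 1) * ((BadS q N σ Φ).card : ℝ)) := by ring
        _ ≤ (q : ℝ) * ((Q : ℝ) ^ (N + 1) + 4 * (Q : ℝ) ^ N) :=
            mul_le_mul_of_nonneg_left hfinal (by linarith)
        _ = (q : ℝ) * (Q : ℝ) ^ (N + 1) + 4 * ((q : ℝ) * (Q : ℝ) ^ N) := by ring
        _ ≤ (q : ℝ) * (Q : ℝ) ^ (N + 1) + 4 * (Q : ℝ) ^ (N + 1) := by linarith
        _ ≤ ((q : ℝ) - 1) * (2 * (Q : ℝ) ^ (N + 1)) := by
            have hp1 : (0 : ℝ) < (Q : ℝ) ^ (N + 1) := by positivity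
            nlinarith
    exact le_of_mul_le_mul_left h4 (by linarith)
  exact_mod_cast hRR

/-- **The semilinear count for matrices of any degree**: over a field `k` with `q ^ s` elements,
at most a `2 / q`-th part of the polynomials `D` of degree at most `N` have a nonzero vector `w` with
`C (D Φ w) = σ(w)`, where `C` is the Cartier operator and `σ` the Frobenius `x ↦ x ^ q` on the
coefficients. -/
theorem cntDetS (k : Type) [Field k] [Fintype k] (q s : Nat) (hk : Fintype.card k = q ^ s)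
    (hs : 0 < s) (p a : Nat) [Fact p.Prime] [CharP k p] (hq : q = p ^ a) (ha : 0 < a)
    (sig : k →+* k) (hsig : ∀ x, sig x = x ^ q) :
    ∀ (r : Nat) (Φ Ψ : Matrix (Fin r) (Fin r) k[X]) (δ : k[X]) (f κ ρ V N : Nat),
      (∀ i j, (Φ i j).natDegree ≤ f) → (Matrix.of fun i j => (Φ i j).coeff f).det ≠ 0 → δ ≠ 0 →
      Φ * Ψ = δ • (1 : Matrix (Fin r) (Fin r) k[X]) →
      (∀ P : k[X], Irreducible P → ¬ P ^ (κ + 1) ∣ δ) → IrrXS q sig Φ → κ + 3 * r + 4 ≤ q →
      4 * (r + 1) ^ 2 ≤ q → 2 * r + 1 ≤ ρ → ρ + 2 ≤ q → 8 * (r + 1) ^ 2 * (f + 1) ≤ V →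
      N + f = (q - 1) * V + ρ →
      q * Nat.card {D : k[X] // D.natDegree ≤ N ∧ ∃ w : Fin r → k[X], w ≠ 0 ∧
        ∀ i, cart q (D * ∑ j, Φ i j * w j) = (w i).map sig} ≤ 2 * Nat.card k ^ (N + 1) := by
  classical
  have _ := ha
  intro r Φ Ψ δ f κ ρ V N hf hlead hδ hΨ hκ hirr hqκ hqr hρr hρ hV hN
  have hbij : Function.Bijective sig := Finite.injective_iff_bijective.1 sig.injective
  let e : k ≃+* k := RingEquiv.ofBijective sig hbij
  have hστ : ∀ x, sig ((e.symm : k →+* k) x) = x := fun x => e.apply_symm_apply x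
  have hτσ : ∀ x, (e.symm : k →+* k) (sig x) = x := fun x => e.symm_apply_apply x
  rw [natcard_badS, Nat.card_eq_fintype_card]
  rcases Nat.eq_zero_or_pos r with h0 | hr
  · subst h0
    have : BadS q N sig Φ = ∅ := by
      rw [Finset.eq_empty_iff_forall_notMem]
      intro D hD
      rw [mem_BadS] at hD
      obtain ⟨_, w, hw, _⟩ := hD
      exact hw (Subsingleton.elim _ _)
    rw [this]
    simp
  · exact bad_leE hk hs hq hsig hστ hτσ hr
      (Pool.Agent.Y709.Gen.latGen k q (by omega) r) Φ Ψ δ hf hlead hδ hΨ hκ hirr hqκ hqr hρr hρ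
      hV hN

end Pool.Agent.Y813.CntE
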