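import Pool.Agent.Y813.CntE.Rec
import Pool.Agent.Y515.CntD.Sum

/-!
The sum over the vectors with independent coordinates: the size of a class of vectors, over an
extension of the field with `q` elements.
-/

set_option autoImplicit false
set_option linter.unusedSectionVars false

open Polynomial Finset
open Pool.Agent.Y709 Pool.Agent.Y515.Cnt Pool.Agent.Y515.CntG Pool.Agent.Y515.CntS
open Pool.Agent.Y515.CntD (sum_geo98 sum_floor98 sum_quarter class_bound card_fib)

namespace Pool.Agent.Y813.CntE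

variable {k : Type} [Field k] [Fintype k]

section

variable {r q Q f V N ρ κ : ℕ} {Φ Ψ : Matrix (Fin r) (Fin r) k[X]} {δ : k[X]}

theorem class_card_aE (hq0 : 0 < q) (hQk : Fintype.card k = Q) (hdet : Φ.det ≠ 0) (x : ℕ) (hV1 : 1 ≤ V)
    (T : Finset (Fin r → k[X])) (γ : (Fin r → k[X]) → ℕ) (c : (Fin r → k[X]) → Fin r → k[X])
    (G n : (Fin r → k[X]) → k[X])
    (hT : ∀ w ∈ T, (∀ b, w b ∈ PF k V) ∧ RcE q N V f ρ (mv Φ w) x (γ w) (c w) (G w) (n w)) :
    T.card * Q ^ x ≤ Q ^ (r * (r * (x / q) + 1) + (r * (x / q) + 1) + (V * (r - 1) + V + f)) := by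
  classical
  have hQ0 : 0 < Q := by rw [← hQk]; exact Fintype.card_pos
  rcases T.eq_empty_or_nonempty with h0 | ⟨w0, hw0⟩
  · rw [h0, Finset.card_empty, zero_mul]; exact Nat.zero_le _
  have hx : x ≤ V - 1 + f := by
    have := (hT w0 hw0).2.hn
    omega
  have h1 := card_fib T (fun w => (c w, G w))
    ((Fintype.piFinset (fun _ : Fin r => PF k (r * (x / q) + 1))) ×ˢ PF k (r * (x / q) + 1))
    (by
      intro w hw
      have hw2 := (hT w hw).2
      rw [Finset.mem_product, Fintype.mem_piFinset]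
      refine ⟨?_, ?_⟩
      · intro i
        rw [mem_PF_succ]
        exact (hw2.hcγ i).trans hw2.hγ
      · rw [mem_PF_succ]
        exact hw2.hG) (Q ^ x) (Q ^ (V * (r - 1) + V + f)) (by
      rintro ⟨c0, G0⟩ _
      rcases (T.filter (fun a => (c a, G a) = (c0, G0))).eq_empty_or_nonempty with h0 | ⟨w1, hw1⟩
      · rw [h0, Finset.card_empty, zero_mul]; exact Nat.zero_le _
      rw [Finset.mem_filter, Prod.mk.injEq] at hw1
      have hc0 : ∃ i, c0 i ≠ 0 := by
        obtain ⟨i, hi⟩ := (hT w1 hw1.1).2.hc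
        refine ⟨i, ?_⟩
        rw [← hw1.2.1]
        intro h0
        rw [h0, coeff_zero] at hi
        exact hi rfl
      have h2 := card_combE (m := V - 1 + f - x + 1) (V := V) hq0 hQk hdet c0 hc0 G0
        (T.filter (fun a => (c a, G a) = (c0, G0))) (by
          intro w hw
          rw [Finset.mem_filter, Prod.mk.injEq] at hw
          obtain ⟨h3, h4, h5⟩ := hw
          obtain ⟨h6, h7⟩ := hT w h3
          refine ⟨h6, n w, ?_, ?_⟩
          · rw [mem_PF_succ]
            have := h7.hn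
            omega
          · rw [← h4, ← h5]
            exact h7.hcG)
      refine (Nat.mul_le_mul_right _ h2).trans ?_
      rw [← pow_add]
      apply Nat.pow_le_pow_right hQ0
      omega)
  refine h1.trans (le_of_eq ?_)
  rw [Finset.card_product, Fintype.card_piFinset, Finset.prod_const, card_PF, hQk,
    Finset.card_univ, Fintype.card_fin, ← pow_mul, ← pow_add, ← pow_add]
  congr 1
  ring

theorem class_card_bE {p a0 : ℕ} [Fact p.Prime] [CharP k p] (hqp : q = p ^ a0) (hq0 : 0 < q)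
    (hQk : Fintype.card k = Q) {σ τ : k →+* k} (hσ : ∀ x, σ x = x ^ q)
    (hστ : ∀ x, σ (τ x) = x) (hτσ : ∀ x, τ (σ x) = x)
    (hf : ∀ i j, (Φ i j).natDegree ≤ f) (hlead : (Matrix.of fun i j => (Φ i j).coeff f).det ≠ 0)
    (hΨ : Φ * Ψ = δ • (1 : Matrix (Fin r) (Fin r) k[X]))
    (hκ : ∀ P : k[X], Irreducible P → ¬ P ^ (κ + 1) ∣ δ)
    (x γ d : ℕ) (hV1 : 1 ≤ V) (hroom : q * γ + f ≤ V)
    (T : Finset (Fin r → k[X])) (c : (Fin r → k[X]) → Fin r → k[X])
    (G n : (Fin r → k[X]) → k[X])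
    (hT : ∀ w ∈ T, (∀ b, w b ∈ PF k V) ∧ RcE q N V f ρ (mv Φ w) x γ (c w) (G w) (n w) ∧
      (G w).natDegree = d) :
    T.card * Q ^ (q * γ + x) ≤ Q ^ (r * (γ + 1) + (d + 1) + (V * (r - 1) + V + κ * d)) := by
  classical
  have hQ0 : 0 < Q := by rw [← hQk]; exact Fintype.card_pos
  rcases T.eq_empty_or_nonempty with h0 | ⟨w0, hw0⟩
  · rw [h0, Finset.card_empty, zero_mul]; exact Nat.zero_le _
  have hx : x ≤ V - 1 + f := by
    have := (hT w0 hw0).2.1.hn
    omega
  have h1 := card_fib T (fun w => (c w, G w))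
    ((Fintype.piFinset (fun _ : Fin r => PF k (γ + 1))) ×ˢ PF k (d + 1))
    (by
      intro w hw
      have hw2 := (hT w hw).2
      rw [Finset.mem_product, Fintype.mem_piFinset]
      refine ⟨?_, ?_⟩
      · intro i
        rw [mem_PF_succ]
        exact (hw2.1.hcγ i)
      · rw [mem_PF_succ]
        exact hw2.2.le) (Q ^ (q * γ + x)) (Q ^ (V * (r - 1) + V + κ * d)) (by
      rintro ⟨c0, G0⟩ _
      rcases (T.filter (fun a => (c a, G a) = (c0, G0))).eq_empty_or_nonempty with h0 | ⟨w1, hw1⟩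
      · rw [h0, Finset.card_empty, zero_mul]; exact Nat.zero_le _
      rw [Finset.mem_filter, Prod.mk.injEq] at hw1
      obtain ⟨hw11, hw12, hw13⟩ := hw1
      obtain ⟨_, hw1r, hw1d⟩ := hT w1 hw11
      rw [hw12, hw13] at hw1r
      rw [hw13] at hw1d
      have h2 := card_refinedE (z := V - 1 + f - x) (V := V) hqp hq0 hQk hσ hστ hτσ Φ Ψ δ hf hlead hΨ hκ c0
        hw1r.hcγ hw1r.hc G0 hw1r.hG0 hw1r.hprim hroom
        (T.filter (fun a => (c a, G a) = (c0, G0))) (by
          intro w hw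
          rw [Finset.mem_filter, Prod.mk.injEq] at hw
          obtain ⟨h3, h4, h5⟩ := hw
          obtain ⟨h6, h7, _⟩ := hT w h3
          refine ⟨h6, n w, h7.hn0, ?_, ?_⟩
          · have := h7.hn
            omega
          · rw [← h4, ← h5]
            exact h7.hcG)
      rw [hw1d] at h2
      apply Nat.le_of_mul_le_mul_right (c := Q ^ f) _ (by positivity)
      calc (T.filter (fun a => (c a, G a) = (c0, G0))).card * Q ^ (q * γ + x) * Q ^ f =
          ((T.filter (fun a => (c a, G a) = (c0, G0))).card * Q ^ (q * γ + f)) * Q ^ x := by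
            rw [pow_add, pow_add]; ring
        _ ≤ Q ^ (V * (r - 1) + (V - 1 + f - x + 1) + κ * d) * Q ^ x := Nat.mul_le_mul_right _ h2
        _ ≤ Q ^ (V * (r - 1) + V + κ * d) * Q ^ f := by
            rw [← pow_add, ← pow_add]
            apply Nat.pow_le_pow_right hQ0
            omega)
  refine h1.trans (le_of_eq ?_)
  rw [Finset.card_product, Fintype.card_piFinset, Finset.prod_const, card_PF, card_PF, hQk,
    Finset.card_univ, Fintype.card_fin, ← pow_mul, ← pow_add, ← pow_add]
  congr 1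
  ring

end

end Pool.Agent.Y813.CntE
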